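import Pool.Agent.MP_5e38ef_lc.TP.Basic

namespace Pool.Agent.MP_5e38ef_lc.TP

open Finset

theorem params_last {k K n U S w v : ℕ} (hK : 0 < K) (hn : 12 * K * k ≤ n) (hn1 : 1 ≤ n)
    (hS : S ≤ n ^ k) (hU : n ^ (3 * K * (3 * k + 1)) ≤ U)
    (hw : (2 ^ w) ^ (3 * K * (3 * k + 1)) ≤ U ^ (3 * K * (3 * k + 1) + 1)) (hv : v < 3 * K) :
    12 * K * (k * (n ^ k) ^ (v + 1) * (S * 2 ^ w) ^ v * (n ^ k) ^ (v + 1)) ≤ (U + 1) ^ (v + 1) := by
  have h1 : k * (v + 1) + k * v + k * (v + 1) + 1 + v ≤ 3 * K * (3 * k + 1) := by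
    have : k * (v + 1) ≤ k * (3 * K) := Nat.mul_le_mul_left k hv
    nlinarith
  have hC : 3 * K * (3 * k + 1) ≠ 0 := by positivity
  generalize 3 * K * (3 * k + 1) = C at h1 hC hU hw
  obtain ⟨e, he⟩ : ∃ e, C = e + v := ⟨C - v, by omega⟩
  have h2 : 12 * K * (k * (n ^ k) ^ (v + 1) * (S * 2 ^ w) ^ v * (n ^ k) ^ (v + 1)) ≤
      n ^ e * (2 ^ w) ^ v := by
    calc 12 * K * (k * (n ^ k) ^ (v + 1) * (S * 2 ^ w) ^ v * (n ^ k) ^ (v + 1))
        = (12 * K * k) * ((n ^ k) ^ (v + 1) * S ^ v * (n ^ k) ^ (v + 1)) * (2 ^ w) ^ v := by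
          rw [mul_pow]; ring
      _ ≤ n * ((n ^ k) ^ (v + 1) * (n ^ k) ^ v * (n ^ k) ^ (v + 1)) * (2 ^ w) ^ v := by gcongr
      _ = n ^ (k * (v + 1) + k * v + k * (v + 1) + 1) * (2 ^ w) ^ v := by
          rw [← pow_mul, ← pow_mul, pow_succ n (_ + _), pow_add n (_ + _), pow_add n (k * (v + 1))]
          ring
      _ ≤ n ^ e * (2 ^ w) ^ v :=
          Nat.mul_le_mul_right _ (Nat.pow_le_pow_right hn1 (by omega))
  have h3 : n ^ e * (2 ^ w) ^ v ≤ U ^ (v + 1) := by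
    rw [← Nat.pow_le_pow_iff_left hC]
    calc (n ^ e * (2 ^ w) ^ v) ^ C = (n ^ C) ^ e * ((2 ^ w) ^ C) ^ v := by
          rw [mul_pow, pow_right_comm n, pow_right_comm (2 ^ w)]
      _ ≤ U ^ e * (U ^ (C + 1)) ^ v := by gcongr
      _ = (U ^ (v + 1)) ^ C := by
          rw [← pow_mul, ← pow_mul, ← pow_add]
          congr 1
          rw [he]
          ring
  exact h2.trans (h3.trans (Nat.pow_le_pow_left (Nat.le_succ U) _))

theorem params_S {k m d n S : ℕ} {δ : ℝ} (hm : 0 < m) (hδ : 1 / (m : ℝ) ≤ δ) (hn : 1 ≤ n)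
    (hd : d ^ m ≤ n) (hS : (S : ℝ) < (n : ℝ) ^ ((k : ℝ) - δ)) : S * d ≤ n ^ k := by
  have hn' : (1 : ℝ) ≤ n := by exact_mod_cast hn
  have hm' : (0 : ℝ) < m := by exact_mod_cast hm
  have h1 : (d : ℝ) ≤ (n : ℝ) ^ δ := by
    calc (d : ℝ) = ((d : ℝ) ^ m) ^ ((m : ℝ)⁻¹) :=
          (Real.pow_rpow_inv_natCast (by positivity) hm.ne').symm
      _ ≤ (n : ℝ) ^ ((m : ℝ)⁻¹) :=
          Real.rpow_le_rpow (by positivity) (by exact_mod_cast hd) (by positivity)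
      _ ≤ (n : ℝ) ^ δ := Real.rpow_le_rpow_of_exponent_le hn' (by rwa [← one_div])
  have h2 : (S : ℝ) * d ≤ (n : ℝ) ^ k := by
    calc (S : ℝ) * d ≤ (n : ℝ) ^ ((k : ℝ) - δ) * (n : ℝ) ^ δ := by gcongr
      _ = (n : ℝ) ^ k := by
          rw [← Real.rpow_add (by linarith), sub_add_cancel, Real.rpow_natCast]
  exact_mod_cast h2

theorem params (k : ℕ) (hk : 2 ≤ k) (δ : ℝ) (hδ : 0 < δ) :
    ∃ C K : ℕ, ∀ᶠ n : ℕ in Filter.atTop, ∃ d : ℕ, 0 < d ∧ ∀ U S w : ℕ, n ^ C ≤ U →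
      (2 ^ w) ^ C ≤ U ^ (C + 1) → (S : ℝ) < (n : ℝ) ^ ((k : ℝ) - δ) →
      8 * k * n ^ (k - 1) ≤ U + 1 ∧ 4 * S * (2 * d) ^ k ≤ n ^ k ∧
      4 * k * (2 * d) * (S + 8 * k ^ 2 * n ^ (k - 1)) ≤ n ^ k ∧
      2 * n ^ k * (12 * K ^ 2) ^ K < d ^ K ∧
      ∀ v < 3 * K, 12 * K * (k * (n ^ k) ^ (v + 1) * (S * 2 ^ w) ^ v * (n ^ k) ^ (v + 1))
        ≤ (U + 1) ^ (v + 1) := by
  obtain ⟨m₀, hm₀⟩ := exists_nat_one_div_lt hδ
  set m : ℕ := m₀ + 1 with hm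
  have hm0 : 0 < m := Nat.succ_pos _
  have hmδ : 1 / (m : ℝ) ≤ δ := by rw [hm]; push_cast; exact hm₀.le
  set L : ℕ := 2 * k * m with hL
  have hL2 : 2 ≤ L := by rw [hL]; nlinarith
  have hL0 : L ≠ 0 := by omega
  set K : ℕ := L * k + 1 with hK
  have hK0 : 0 < K := Nat.succ_pos _
  set D : ℕ := 8 + 128 * k ^ 3 + 2 * 2 ^ (L * k) * (12 * K ^ 2) ^ K with hD
  refine ⟨3 * K * (3 * k + 1), K, ?_⟩
  filter_upwards [Filter.eventually_ge_atTop (D ^ L), Filter.eventually_ge_atTop (12 * K * k),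
    Filter.eventually_ge_atTop 1] with n hnD hnK hn1
  set d : ℕ := Nat.nthRoot L n with hd
  have hd1 : d ^ L ≤ n := Nat.pow_nthRoot_le (Or.inl hL0)
  have hd2 : n < (d + 1) ^ L := Nat.lt_pow_nthRoot_add_one hL0 n
  have hdD : D ≤ d := by
    have := (Nat.pow_lt_pow_iff_left hL0).1 (hnD.trans_lt hd2)
    omega
  have hA : 8 ≤ d := le_trans (by rw [hD]; omega) hdD
  have hB : 128 * k ^ 3 ≤ d := le_trans (by rw [hD]; omega) hdD
  have hC : 2 * 2 ^ (L * k) * (12 * K ^ 2) ^ K ≤ d := le_trans (by rw [hD]; omega) hdD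
  have hd0 : 0 < d := by omega
  have hk3 : k ≤ k ^ 3 := Nat.le_self_pow (by norm_num) k
  have hdd : d * d ≤ n := by
    calc d * d = d ^ 2 := by ring
      _ ≤ d ^ L := Nat.pow_le_pow_right hd0 hL2
      _ ≤ n := hd1
  have hnk : n ^ k = n * n ^ (k - 1) := by
    rw [← pow_succ']
    congr 1
    omega
  refine ⟨d, hd0, fun U S w hU hw hS => ?_⟩
  have hS1 : S * d ^ (2 * k) ≤ n ^ k :=
    params_S hm0 hmδ hn1 (by rw [← pow_mul]; exact hd1) hS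
  have hS2 : S ≤ n ^ k := (Nat.le_mul_of_pos_right S (by positivity)).trans hS1
  refine ⟨?_, ?_, ?_, ?_, fun v hv => params_last hK0 hnK hn1 hS2 hU hw hv⟩
  · calc 8 * k * n ^ (k - 1) ≤ n * n ^ (k - 1) := by
          refine Nat.mul_le_mul_right _ (le_trans ?_ hnK)
          nlinarith
      _ = n ^ k := hnk.symm
      _ ≤ n ^ (3 * K * (3 * k + 1)) := Nat.pow_le_pow_right hn1 (by nlinarith)
      _ ≤ U + 1 := hU.trans (Nat.le_succ U)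
  · have h1 : 4 * 2 ^ k ≤ d ^ k := by
      calc 4 * 2 ^ k ≤ 4 ^ k * 2 ^ k := Nat.mul_le_mul_right _ (Nat.le_self_pow (by omega) 4)
        _ = 8 ^ k := (mul_pow 4 2 k).symm
        _ ≤ d ^ k := Nat.pow_le_pow_left hA k
    calc 4 * S * (2 * d) ^ k = S * (4 * 2 ^ k * d ^ k) := by rw [mul_pow]; ring
      _ ≤ S * (d ^ k * d ^ k) := by gcongr
      _ = S * d ^ (2 * k) := by rw [two_mul, pow_add]
      _ ≤ n ^ k := hS1
  · have h1 : 16 * k * d * S ≤ n ^ k := by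
      calc 16 * k * d * S ≤ d * d * S := by gcongr; omega
        _ = S * d ^ 2 := by ring
        _ ≤ S * d ^ (2 * k) := Nat.mul_le_mul_left _ (Nat.pow_le_pow_right hd0 (by omega))
        _ ≤ n ^ k := hS1
    have h2 : 128 * k ^ 3 * d * n ^ (k - 1) ≤ n ^ k := by
      rw [hnk]
      exact Nat.mul_le_mul_right _ ((Nat.mul_le_mul_right d hB).trans hdd)
    have h3 : 2 * (4 * k * (2 * d) * (S + 8 * k ^ 2 * n ^ (k - 1))) =
        16 * k * d * S + 128 * k ^ 3 * d * n ^ (k - 1) := by ring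
    omega
  · have h1 : n ^ k < (2 * d) ^ (L * k) := by
      rw [pow_mul]
      exact Nat.pow_lt_pow_left (hd2.trans_le (Nat.pow_le_pow_left (by omega) L)) (by omega)
    calc 2 * n ^ k * (12 * K ^ 2) ^ K < 2 * (2 * d) ^ (L * k) * (12 * K ^ 2) ^ K := by
          have : 0 < (12 * K ^ 2) ^ K := by positivity
          gcongr
      _ = d ^ (L * k) * (2 * 2 ^ (L * k) * (12 * K ^ 2) ^ K) := by rw [mul_pow 2 d]; ring
      _ ≤ d ^ (L * k) * d := Nat.mul_le_mul_left _ hC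
      _ = d ^ K := by rw [hK, pow_succ]

end Pool.Agent.MP_5e38ef_lc.TP
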