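import Pool.Agent.MP_5e38ef_lc.TP.Basic

namespace Pool.Agent.MP_5e38ef_lc.TP

open Finset

open Classical in
theorem union_bound {k n U S W : ℕ} (pre : (Fin k × Fin n → Fin (U + 1)) → Fin S → Fin W)
    (h : ℤ → Fin S) (g : ℤ → Fin W → Fin S) (out : ℤ → Fin W → Fin W → Bool)
    (hyes : ∀ A, ∀ z ∈ Icc (0 : ℤ) (k * U),
      (out z (pre A (h z)) (pre A (g z (pre A (h z)))) = true ↔ ∃ l, z = zs A l)) (v : ℕ)
    (hind : ∀ (i0 : Fin k) (Z : Finset ℤ) (F : Finset (Fin k → Fin n)),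
      (∀ l ∈ F, ∀ l' ∈ F, l i0 = l' i0 → l = l') → (U + 1) ^ F.card *
        (univ.filter (fun A : Fin k × Fin n → Fin (U + 1) => ∀ l ∈ F, zs A l ∈ Z)).card
      ≤ Z.card ^ F.card * Fintype.card (Fin k × Fin n → Fin (U + 1))) :
    (U + 1) ^ (v + 1) * (univ.filter (fun A : Fin k × Fin n → Fin (U + 1) =>
        ∃ i0 : Fin k, ∃ F : Finset (Fin k → Fin n), F.card = v + 1 ∧
          (∀ l ∈ F, ∀ l' ∈ F, l i0 = l' i0 → l = l') ∧ ∃ T : Finset (Fin S), T.card = v ∧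
          ∀ l ∈ F, h (zs A l) ∈ T ∧ g (zs A l) (pre A (h (zs A l))) ∈ T)).card
      ≤ k * (n ^ k) ^ (v + 1) * (S * W) ^ v * (n ^ k) ^ (v + 1) *
          Fintype.card (Fin k × Fin n → Fin (U + 1)) := by
  let Z : Finset (Fin S × Fin W) → Finset ℤ := fun mu => (Icc (0 : ℤ) (k * U)).filter fun z =>
    ∃ p ∈ mu, ∃ p' ∈ mu, p.1 = h z ∧ p'.1 = g z p.2 ∧ out z p.2 p'.2 = true
  have hZ : ∀ mu : Finset (Fin S × Fin W), (∃ A', ∀ p ∈ mu, pre A' p.1 = p.2) →
      (Z mu).card ≤ n ^ k := by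
    rintro mu ⟨A', hA'⟩
    have hs : Z mu ⊆ univ.image (zs A') := by
      intro z hz
      obtain ⟨hz1, p, hp, p', hp', e1, e2, e3⟩ := mem_filter.1 hz
      have a1 : pre A' (h z) = p.2 := by rw [← e1]; exact hA' p hp
      have a2 : pre A' (g z p.2) = p'.2 := by rw [← e2]; exact hA' p' hp'
      obtain ⟨l, hl⟩ := (hyes A' z hz1).1 (by rw [a1, a2]; exact e3)
      exact mem_image.2 ⟨l, mem_univ _, hl.symm⟩
    refine (card_le_card hs).trans (card_image_le.trans ?_)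
    simp
  let J : Finset (Fin k × Finset (Fin k → Fin n) × Finset (Fin S × Fin W)) :=
    (univ ×ˢ powersetCard (v + 1) univ ×ˢ powersetCard v univ).filter fun t =>
      (∀ l ∈ t.2.1, ∀ l' ∈ t.2.1, l t.1 = l' t.1 → l = l') ∧ ∃ A', ∀ p ∈ t.2.2, pre A' p.1 = p.2
  have hJ : J.card ≤ k * (n ^ k) ^ (v + 1) * (S * W) ^ v := by
    refine (card_filter_le _ _).trans ?_
    rw [card_product, card_product, card_powersetCard, card_powersetCard, mul_assoc]
    simp only [card_univ, Fintype.card_fin, Fintype.card_fun, Fintype.card_prod]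
    exact Nat.mul_le_mul_left _ (Nat.mul_le_mul (Nat.choose_le_pow _ _) (Nat.choose_le_pow _ _))
  have hsub : (univ.filter (fun A : Fin k × Fin n → Fin (U + 1) =>
        ∃ i0 : Fin k, ∃ F : Finset (Fin k → Fin n), F.card = v + 1 ∧
          (∀ l ∈ F, ∀ l' ∈ F, l i0 = l' i0 → l = l') ∧ ∃ T : Finset (Fin S), T.card = v ∧
          ∀ l ∈ F, h (zs A l) ∈ T ∧ g (zs A l) (pre A (h (zs A l))) ∈ T)) ⊆
      J.biUnion fun t => univ.filter fun A : Fin k × Fin n → Fin (U + 1) =>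
        ∀ l ∈ t.2.1, zs A l ∈ Z t.2.2 := by
    intro A hA
    obtain ⟨-, i0, F, hF, hr, T, hT, hl⟩ := mem_filter.1 hA
    refine mem_biUnion.2 ⟨(i0, F, T.image fun c => (c, pre A c)), mem_filter.2 ⟨?_, hr, A, ?_⟩,
      mem_filter.2 ⟨mem_univ _, fun l hlF => mem_filter.2 ⟨zs_mem A l, ?_⟩⟩⟩
    · refine mem_product.2 ⟨mem_univ _, mem_product.2 ⟨mem_powersetCard.2 ⟨subset_univ _, hF⟩,
        mem_powersetCard.2 ⟨subset_univ _, ?_⟩⟩⟩
      rw [card_image_of_injective _ fun a b e => (Prod.ext_iff.1 e).1, hT]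
    · intro p hp
      obtain ⟨c, -, rfl⟩ := mem_image.1 hp
      rfl
    · exact ⟨_, mem_image_of_mem _ (hl l hlF).1, _, mem_image_of_mem _ (hl l hlF).2, rfl, rfl,
        (hyes A _ (zs_mem A l)).2 ⟨l, rfl⟩⟩
  refine (Nat.mul_le_mul_left _ ((card_le_card hsub).trans card_biUnion_le)).trans ?_
  rw [mul_sum, mul_assoc (k * _ * _)]
  refine (sum_le_card_nsmul _ _ ((n ^ k) ^ (v + 1) *
    Fintype.card (Fin k × Fin n → Fin (U + 1))) ?_).trans ?_
  · intro t ht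
    obtain ⟨h1, h2, h3⟩ := mem_filter.1 ht
    have hc : t.2.1.card = v + 1 := (mem_powersetCard.1 (mem_product.1 (mem_product.1 h1).2).1).2
    have := hind t.1 (Z t.2.2) t.2.1 h2
    rw [hc] at this
    exact this.trans (Nat.mul_le_mul_right _ (Nat.pow_le_pow_left (hZ _ h3) _))
  · rw [smul_eq_mul]
    exact Nat.mul_le_mul_right _ hJ

end Pool.Agent.MP_5e38ef_lc.TP
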