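import Pool.Agent.MP_5e38ef_lc.Defs
import Pool.Agent.MP_5e38ef_lc.TP.Groups
import Pool.Agent.MP_5e38ef_lc.TP.Count
import Pool.Agent.MP_5e38ef_lc.TP.Union
import Pool.Agent.MP_5e38ef_lc.TP.Params
import Pool.Agent.MP_5e38ef_lc.TP.Graph

namespace Pool.Agent.MP_5e38ef_lc.TP
open Finset

/-- A database on which few labels collide in the first probe and no `v + 1` labels with
different coordinates are answered from `v` cells. -/
lemma good_db {k n U S W K : ℕ} (hn : 0 < n) (hK : 0 < K)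
    (pre : (Fin k × Fin n → Fin (U + 1)) → Fin S → Fin W)
    (h : ℤ → Fin S) (g : ℤ → Fin W → Fin S) (out : ℤ → Fin W → Fin W → Bool)
    (hyes : ∀ A, ∀ z ∈ Icc (0 : ℤ) (k * U),
      (out z (pre A (h z)) (pre A (g z (pre A (h z)))) = true ↔ ∃ l, z = zs A l))
    {T : Type} [DecidableEq T] (cls : ℤ → T) (q : ℕ) (hq4 : 4 * k * n ^ (k - 1) * q ≤ U + 1)
    (hq : ∀ c, ((Icc (0 : ℤ) (k * U)).filter (fun z => cls z = c)).card ≤ q)
    (h5 : ∀ v < 3 * K, 12 * K * (k * (n ^ k) ^ (v + 1) * (S * W) ^ v * (n ^ k) ^ (v + 1))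
        ≤ (U + 1) ^ (v + 1)) :
    ∃ A : Fin k × Fin n → Fin (U + 1),
      2 * (univ.filter (fun l : Fin k → Fin n =>
        ∃ l', l' ≠ l ∧ (∃ i, l i = l' i) ∧ cls (zs A l) = cls (zs A l'))).card < n ^ k ∧
      ∀ v < 3 * K, ¬ ∃ i0 : Fin k, ∃ F : Finset (Fin k → Fin n), F.card = v + 1 ∧
          (∀ l ∈ F, ∀ l' ∈ F, l i0 = l' i0 → l = l') ∧ ∃ T : Finset (Fin S), T.card = v ∧
          ∀ l ∈ F, h (zs A l) ∈ T ∧ g (zs A l) (pre A (h (zs A l))) ∈ T := by
  classical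
  set Ω := Fintype.card (Fin k × Fin n → Fin (U + 1)) with hΩ
  have hΩ0 : 0 < Ω := Fintype.card_pos
  set bad : (Fin k × Fin n → Fin (U + 1)) → ℕ := fun A => (univ.filter (fun l : Fin k → Fin n =>
    ∃ l', l' ≠ l ∧ (∃ i, l i = l' i) ∧ cls (zs A l) = cls (zs A l'))).card with hbad
  set Bad : ℕ → (Fin k × Fin n → Fin (U + 1)) → Prop := fun v A =>
    ∃ i0 : Fin k, ∃ F : Finset (Fin k → Fin n), F.card = v + 1 ∧
      (∀ l ∈ F, ∀ l' ∈ F, l i0 = l' i0 → l = l') ∧ ∃ T : Finset (Fin S), T.card = v ∧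
      ∀ l ∈ F, h (zs A l) ∈ T ∧ g (zs A l) (pre A (h (zs A l))) ∈ T with hBad
  have p1 : 4 * ∑ A, bad A ≤ n ^ k * Ω := by
    have := pairs (k := k) (n := n) (U := U) cls q hq
    refine Nat.le_of_mul_le_mul_left ?_ (Nat.succ_pos U)
    calc (U + 1) * (4 * ∑ A, bad A) = 4 * ((U + 1) * ∑ A, bad A) := by ring
      _ ≤ 4 * (n ^ k * (k * n ^ (k - 1)) * q * Ω) := Nat.mul_le_mul_left _ this
      _ = (4 * k * n ^ (k - 1) * q) * (n ^ k * Ω) := by ring
      _ ≤ _ := Nat.mul_le_mul_right _ hq4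
  have p2 : ∀ v < 3 * K, 12 * K * (univ.filter (Bad v)).card ≤ Ω := by
    intro v hv
    have := union_bound pre h g out hyes v indep
    refine Nat.le_of_mul_le_mul_left ?_ (pow_pos (Nat.succ_pos U) (v + 1))
    calc (U + 1) ^ (v + 1) * (12 * K * (univ.filter (Bad v)).card)
        = 12 * K * ((U + 1) ^ (v + 1) * (univ.filter (Bad v)).card) := by ring
      _ ≤ 12 * K * (k * (n ^ k) ^ (v + 1) * (S * W) ^ v * (n ^ k) ^ (v + 1) * Ω) :=
          Nat.mul_le_mul_left _ (by convert this)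
      _ = 12 * K * (k * (n ^ k) ^ (v + 1) * (S * W) ^ v * (n ^ k) ^ (v + 1)) * Ω := by ring
      _ ≤ _ := Nat.mul_le_mul_right _ (h5 v hv)
  have p3 : 4 * (univ.filter (fun A => ∃ v < 3 * K, Bad v A)).card ≤ Ω := by
    have : univ.filter (fun A => ∃ v < 3 * K, Bad v A) ⊆
        (range (3 * K)).biUnion (fun v => univ.filter (Bad v)) := by
      intro A hA
      obtain ⟨v, hv, hA⟩ := (mem_filter.mp hA).2
      exact mem_biUnion.mpr ⟨v, mem_range.mpr hv, mem_filter.mpr ⟨mem_univ _, hA⟩⟩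
    have h1 := (card_le_card this).trans card_biUnion_le
    have h2 : 12 * K * ∑ v ∈ range (3 * K), (univ.filter (Bad v)).card ≤ 3 * K * Ω := by
      rw [mul_sum]
      simpa using sum_le_card_nsmul (range (3 * K)) _ Ω fun v hv => p2 v (mem_range.mp hv)
    refine Nat.le_of_mul_le_mul_left ?_ (show 0 < 3 * K by omega)
    nlinarith [Nat.mul_le_mul_left (12 * K) h1]
  by_contra hno
  have p4 : ∀ A, n ^ k ≤ 2 * bad A + n ^ k * (if ∃ v < 3 * K, Bad v A then 1 else 0) := by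
    intro A
    split_ifs with hA
    · omega
    · by_contra hlt
      exact hno ⟨A, by simp only [hbad] at hlt; omega, fun v hv hb => hA ⟨v, hv, hb⟩⟩
  have p5 := sum_le_sum fun A (_ : A ∈ univ) => p4 A
  rw [sum_add_distrib, ← mul_sum, ← mul_sum, ← card_filter, sum_const, card_univ, smul_eq_mul,
    ← hΩ] at p5
  have := Nat.mul_le_mul_left (n ^ k) p3
  have : 0 < n ^ k * Ω := by positivity
  nlinarith

theorem finite_bound {k n U S w d K : ℕ} (hk : 0 < k) (hn : 0 < n) (hd : 0 < d)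
    (h1 : 8 * k * n ^ (k - 1) ≤ U + 1) (h2 : 4 * S * (2 * d) ^ k ≤ n ^ k)
    (h3 : 4 * k * (2 * d) * (S + 8 * k ^ 2 * n ^ (k - 1)) ≤ n ^ k)
    (h4 : 2 * n ^ k * (12 * K ^ 2) ^ K < d ^ K)
    (h5 : ∀ v < 3 * K, 12 * K * (k * (n ^ k) ^ (v + 1) * (S * 2 ^ w) ^ v * (n ^ k) ^ (v + 1))
        ≤ (U + 1) ^ (v + 1)) : ¬ Solves k n U S w 2 := by
  classical
  rintro ⟨pre0, addr, out0, H⟩
  have hnk : 0 < n ^ k := by positivity
  have hK : 0 < K := by
    rcases Nat.eq_zero_or_pos K with rfl | h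
    · simp at h4; omega
    · exact h
  set D := 4 * k * n ^ (k - 1) with hD
  have hD0 : 0 < D := by positivity
  have h1' : 2 * D ≤ U + 1 := by rw [hD]; linarith
  set q := (U + 1) / D with hqd
  have hq0 : 0 < q := Nat.div_pos (by omega) hD0
  have hq4 : D * q ≤ U + 1 := Nat.mul_div_le _ _
  have hq5 : U + 1 ≤ 2 * D * q := by
    have := Nat.lt_mul_div_succ (U + 1) hD0
    nlinarith
  set pre : (Fin k × Fin n → Fin (U + 1)) → Fin S → Fin (2 ^ w) :=
    fun A => pre0 (fun a i => ((A (a, i) : ℕ) : ℤ)) with hpre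
  set h : ℤ → Fin S := fun z => addr z [] with hh
  set g : ℤ → Fin (2 ^ w) → Fin S := fun z x => addr z [x] with hg
  obtain ⟨cls, c1, c2, c3⟩ := classes (k * U) q hq0 h
  push_cast at c1 c2 c3
  obtain ⟨A, hA1, hA2⟩ := good_db hn hK pre h g (fun z x y => out0 z [y, x]) (by
    intro A z hz
    obtain ⟨z0, z1⟩ := mem_Icc.mp hz
    exact H _ (fun a i => ⟨by positivity, by exact_mod_cast Nat.lt_succ_iff.mp (A (a, i)).2⟩)
      z z0 z1) cls q hq4 c2 h5
  set L := univ.filter (fun l : Fin k → Fin n =>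
    ¬ ∃ l', l' ≠ l ∧ (∃ i, l i = l' i) ∧ cls (zs A l) = cls (zs A l')) with hL
  have hLc : n ^ k < 2 * L.card := by
    have := card_filter_add_card_filter_not (s := univ) (fun l : Fin k → Fin n =>
      ∃ l', l' ≠ l ∧ (∃ i, l i = l' i) ∧ cls (zs A l) = cls (zs A l'))
    rw [card_univ, Fintype.card_fun, Fintype.card_fin, Fintype.card_fin, ← hL] at this
    omega
  obtain ⟨i0, L1, s1, gr, g1, g2, g3, g4⟩ := rainbow_groups hk
    (fun l => g (zs A l) (pre A (h (zs A l)))) (2 * d) (by omega) L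
  have hm : n ^ k < 4 * k * L1.card := by
    rw [mul_assoc] at h2 ⊢
    omega
  have : Nonempty (Fin k → Fin n) := ⟨fun _ => ⟨0, hn⟩⟩
  set f : (Fin k → Fin n) → ℤ ⊕ Fin S := fun l => cls (zs A l) with hf
  set a : (Fin k → Fin n) → (Fin k → Fin n) := fun l => Function.invFun f (f l) with ha
  have ha1 : ∀ l, f (a l) = f l := fun l => Function.invFun_eq ⟨l, rfl⟩
  have ha2 : (L1.image a).card ≤ S + 8 * k ^ 2 * n ^ (k - 1) := by
    have e1 : L1.image a ⊆ ((Icc (0 : ℤ) (k * U)).image cls).image (Function.invFun f) := by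
      intro x hx
      obtain ⟨l, _, rfl⟩ := mem_image.mp hx
      exact mem_image_of_mem _ (mem_image_of_mem _ (zs_mem A l))
    refine (card_le_card e1).trans (card_image_le.trans (Nat.le_of_mul_le_mul_left ?_ hq0))
    refine c3.trans ?_
    have e2 : k * U + 1 ≤ k * (2 * D * q) :=
      calc k * U + 1 ≤ k * U + k := by omega
        _ = k * (U + 1) := by ring
        _ ≤ _ := Nat.mul_le_mul_left _ hq5
    have e3 : q * (S + 8 * k ^ 2 * n ^ (k - 1)) = q * S + k * (2 * D * q) := by rw [hD]; ring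
    omega
  have hden : d * ((L1.image a).card + (L1.image gr).card) ≤ L1.card := by
    have e1 : 2 * d * (L1.image a).card ≤ L1.card := by
      refine Nat.le_of_mul_le_mul_left ?_ (show 0 < 4 * k by omega)
      calc 4 * k * (2 * d * (L1.image a).card) = 4 * k * (2 * d) * (L1.image a).card := by ring
        _ ≤ _ := Nat.mul_le_mul_left _ ha2
        _ ≤ _ := h3.trans hm.le
    rw [mul_assoc] at e1 g3
    rw [mul_add]
    omega
  obtain ⟨F, s2, f1, f2, f3⟩ := theta a gr (fun l => l i0) L1 (card_pos.mp (by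
      rcases Nat.eq_zero_or_pos L1.card with h0 | h0
      · rw [h0] at hm; omega
      · exact h0)) d K hd (by
      intro l hl l' _ e1 e2
      by_contra hne
      refine (mem_filter.mp (s1 hl)).2 ⟨l', fun e => hne e.symm, ⟨i0, e2⟩, ?_⟩
      have := ha1 l
      rw [e1, ha1] at this
      exact this.symm) g2 hden (by simpa using h4)
  set T : Finset (Fin S) := (F.image a).image (fun l => h (zs A l)) ∪
    (F.image gr).image (fun l => g (zs A l) (pre A (h (zs A l)))) with hT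
  have hTc : T.card < F.card :=
    ((card_union_le _ _).trans (Nat.add_le_add card_image_le card_image_le)).trans_lt f3
  obtain ⟨F', s3, f4⟩ := exists_subset_card_eq (show T.card + 1 ≤ F.card from hTc)
  refine hA2 T.card (by omega) ⟨i0, F', f4, fun l hl l' hl' => f1 l (s3 hl) l' (s3 hl'), T, rfl,
    fun l hl => ⟨mem_union_left _ ?_, mem_union_right _ ?_⟩⟩
  · exact mem_image.mpr ⟨a l, mem_image_of_mem _ (s3 hl),
      c1 _ (zs_mem A _) _ (zs_mem A _) (ha1 l)⟩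
  · exact mem_image.mpr ⟨gr l, mem_image_of_mem _ (s3 hl), g1 l (s2 (s3 hl))⟩

theorem main (k : ℕ) (hk : 2 ≤ k) (δ : ℝ) (hδ : 0 < δ) :
    ∃ C : ℕ, ∀ᶠ n : ℕ in Filter.atTop, ∀ U S w : ℕ, n ^ C ≤ U → (2 ^ w) ^ C ≤ U ^ (C + 1) →
      Solves k n U S w 2 → (n : ℝ) ^ ((k : ℝ) - δ) ≤ S := by
  obtain ⟨C, K, H⟩ := params k hk δ hδ
  refine ⟨C, ?_⟩
  filter_upwards [H, Filter.eventually_gt_atTop 0] with n ⟨d, hd, H⟩ hn U S w a1 a2 a3
  by_contra hlt
  obtain ⟨h1, h2, h3, h4, h5⟩ := H U S w a1 a2 (not_le.mp hlt)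
  exact finite_bound (by omega) hn hd h1 h2 h3 h4 h5 a3

end Pool.Agent.MP_5e38ef_lc.TP
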