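import Pool.Agent.MP_5e38ef_lc.TP.Main

namespace Pool.Agent.MP_5e38ef_lc.TP.TwoProbesVariant
open Pool.Agent.MP_5e38ef_lc

theorem result (k : ℕ) (hk : 2 ≤ k) (δ : ℝ) (hδ : 0 < δ) :
    ∃ C : ℕ, ∀ᶠ n : ℕ in Filter.atTop, ∀ U S w : ℕ, n ^ C ≤ U → (2 ^ w) ^ C ≤ U ^ (C + 1) →
      Solves k n U S w 2 → (n : ℝ) ^ ((k : ℝ) - δ) ≤ S :=
  TP.main k hk δ hδ

end Pool.Agent.MP_5e38ef_lc.TP.TwoProbesVariant
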